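import Pool.Agent.Q66.SH.Stm

/-! Lemma job SH-APX: approximation by blocks. -/

set_option autoImplicit false

open Filter Topology
open scoped ENNReal

namespace Pool.Agent.Q83.SH

open Pool.Agent.Q66.SH

section
variable {H : Type} [NormedAddCommGroup H] [InnerProductSpace ℂ H]

theorem rk1_apply (u v x : H) : rk1 u v x = inner ℂ u x • v := rfl

/-- the partial sum -/
noncomputable def TR (s : ℕ → ℝ) (e f : ℕ → H) (R : ℕ) : H →L[ℂ] H :=
  ∑ j ∈ Finset.range R, rk1 (e j) ((s j : ℂ) • f j)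

theorem TR_apply (s : ℕ → ℝ) (e f : ℕ → H) (R : ℕ) (x : H) :
    TR s e f R x = ∑ j ∈ Finset.range R, ((s j : ℂ) * inner ℂ (e j) x) • f j := by
  unfold TR
  rw [_root_.sum_apply]
  refine Finset.sum_congr rfl (fun j _ => ?_)
  rw [rk1_apply, smul_smul, mul_comm]

theorem hasSV_sub (T : H →L[ℂ] H) (s : ℕ → ℝ) (e f : ℕ → H) (ha : Antitone s) (h0 : ∀ j, 0 ≤ s j)
    (ht : Tendsto s atTop (𝓝 0)) (he : Orthonormal ℂ e) (hf : Orthonormal ℂ f)
    (hT : ∀ x, HasSum (fun j => ((s j : ℂ) * inner ℂ (e j) x) • f j) (T x)) (R : ℕ) :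
    HasSV (T - TR s e f R) (fun j => s (j + R)) := by
  refine ⟨fun i j hij => ha (Nat.add_le_add_right hij R), fun j => h0 _,
    (tendsto_add_atTop_iff_nat R).2 ht, fun j => e (j + R), fun j => f (j + R),
    he.comp _ (add_left_injective R), hf.comp _ (add_left_injective R), fun x => ?_⟩
  rw [_root_.sub_apply, TR_apply]
  exact (hasSum_nat_add_iff' R).2 (hT x)

theorem rank_zero (F : H →L[ℂ] H) (h : RankLE F 0) : F = 0 := by
  obtain ⟨W, hW, hr, hx⟩ := h
  have h1 : W = ⊥ := Submodule.finrank_eq_zero.1 (Nat.le_zero.1 hr)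
  ext x
  have := hx x
  rw [h1] at this
  simpa using this

theorem norm_le_apx (T : H →L[ℂ] H) : ‖T‖ₑ ≤ apx 0 T := by
  unfold apx
  refine le_iInf (fun F => le_iInf (fun hF => ?_))
  rw [rank_zero F hF, sub_zero]

theorem tail_tendsto [CompleteSpace H] (hU : S_SVU) (p : ℝ≥0∞) (hp : p ≠ 0) (T : H →L[ℂ] H) (s : ℕ → ℝ) (e f : ℕ → H)
    (ha : Antitone s) (h0 : ∀ j, 0 ≤ s j)
    (ht : Tendsto s atTop (𝓝 0)) (he : Orthonormal ℂ e) (hf : Orthonormal ℂ f)
    (hT : ∀ x, HasSum (fun j => ((s j : ℂ) * inner ℂ (e j) x) • f j) (T x))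
    (hs : p ≠ ∞ → Summable (fun j => s j ^ p.toReal)) :
    Tendsto (fun R => N p (T - TR s e f R)) atTop (𝓝 0) := by
  by_cases hp' : p = ∞
  · have h1 : ∀ R, N p (T - TR s e f R) ≤ ENNReal.ofReal (s R) := by
      intro R
      unfold N
      rw [if_pos hp']
      have h2 := hU H (T - TR s e f R) _ 0 (hasSV_sub T s e f ha h0 ht he hf hT R)
      rw [Nat.zero_add] at h2
      exact (norm_le_apx _).trans h2
    have h2 : Tendsto (fun R => ENNReal.ofReal (s R)) atTop (𝓝 0) := by
      have := ENNReal.tendsto_ofReal ht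
      rwa [ENNReal.ofReal_zero] at this
    exact tendsto_of_tendsto_of_tendsto_of_le_of_le tendsto_const_nhds h2 (fun _ => zero_le) h1
  · have hr : 0 < p.toReal := ENNReal.toReal_pos hp hp'
    have h1 : ∀ R, N p (T - TR s e f R) ≤
        (∑' n, ENNReal.ofReal (s (n + R)) ^ p.toReal) ^ (1 / p.toReal) := by
      intro R
      unfold N
      rw [if_neg hp']
      refine ENNReal.rpow_le_rpow ?_ (by positivity)
      unfold pw
      exact ENNReal.tsum_le_tsum (fun n => ENNReal.rpow_le_rpow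
        (hU H (T - TR s e f R) _ n (hasSV_sub T s e f ha h0 ht he hf hT R)) hr.le)
    have h3 : ∑' n, ENNReal.ofReal (s n) ^ p.toReal ≠ ∞ := by
      have h4 : ∀ n, ENNReal.ofReal (s n) ^ p.toReal = ENNReal.ofReal (s n ^ p.toReal) := fun n =>
        ENNReal.ofReal_rpow_of_nonneg (h0 n) hr.le
      simp_rw [h4]
      exact (hs hp').tsum_ofReal_ne_top
    have h5 := ENNReal.tendsto_sum_nat_add (fun n => ENNReal.ofReal (s n) ^ p.toReal) h3
    have h6 := h5.ennrpow_const (1 / p.toReal)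
    rw [ENNReal.zero_rpow_of_pos (by positivity)] at h6
    exact tendsto_of_tendsto_of_tendsto_of_le_of_le tendsto_const_nhds h6 (fun _ => zero_le) h1

theorem rank_TR [CompleteSpace H] (hR : S_RK) (s : ℕ → ℝ) (e f : ℕ → H) (R : ℕ) :
    RankLE (TR s e f R) R := by
  obtain ⟨-, hadd, -, -, h1⟩ := hR H
  induction R with
  | zero =>
    refine ⟨⊥, inferInstance, by simp, fun x => ?_⟩
    simp [TR]
  | succ R ih =>
    have : TR s e f (R + 1) = TR s e f R + rk1 (e R) ((s R : ℂ) • f R) := by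
      unfold TR
      rw [Finset.sum_range_succ]
    rw [this]
    exact hadd R 1 _ _ ih (h1 _ _)

theorem comp_rk1 [CompleteSpace H] (A : H →L[ℂ] H) (hA : ContinuousLinearMap.adjoint A = A) (u v : H) :
    A * rk1 u v * A = rk1 (A u) (A v) := by
  ext x
  simp only [mul_apply_eq_comp, rk1_apply, map_smul]
  rw [← ContinuousLinearMap.adjoint_inner_left, hA]

theorem rk1_tendsto (u v : ℕ → H) (u0 v0 : H) (hu : Tendsto u atTop (𝓝 u0)) (hv : Tendsto v atTop (𝓝 v0)) :
    Tendsto (fun k => rk1 (u k) (v k)) atTop (𝓝 (rk1 u0 v0)) := by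
  have h1 : Tendsto (fun k => innerSL ℂ (u k)) atTop (𝓝 (innerSL ℂ u0)) :=
    ((innerSL ℂ (E := H)).continuous.tendsto u0).comp hu
  have h2 : Continuous (fun q : (H →L[ℂ] ℂ) × H => (ContinuousLinearMap.smulRightL ℂ H H) q.1 q.2) :=
    (ContinuousLinearMap.smulRightL ℂ H H).continuous₂
  exact (h2.tendsto (innerSL ℂ u0, v0)).comp (h1.prodMk_nhds hv)

theorem TR_tendsto [CompleteSpace H] (hP : S_PB) (b : HilbertBasis ℕ ℂ H) (s : ℕ → ℝ) (e f : ℕ → H)
    (R : ℕ) :
    Tendsto (fun k => ‖TR s e f R - P b k * TR s e f R * P b k‖ₑ) atTop (𝓝 0) := by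
  obtain ⟨-, hadj, -, -, -, hlim⟩ := hP H b
  have h1 : ∀ k, P b k * TR s e f R * P b k =
      ∑ j ∈ Finset.range R, rk1 (P b k (e j)) (P b k ((s j : ℂ) • f j)) := by
    intro k
    unfold TR
    rw [Finset.mul_sum, Finset.sum_mul]
    exact Finset.sum_congr rfl (fun j _ => comp_rk1 _ (hadj k) _ _)
  have h2 : Tendsto (fun k => P b k * TR s e f R * P b k) atTop (𝓝 (TR s e f R)) := by
    simp_rw [h1]
    exact tendsto_finsetSum _ (fun j _ => rk1_tendsto _ _ _ _ (hlim _) (hlim _))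
  have h3 : Tendsto (fun k => TR s e f R - P b k * TR s e f R * P b k) atTop (𝓝 0) := by
    have := (tendsto_const_nhds (x := TR s e f R)).sub h2
    rwa [sub_self] at this
  have h4 := h3.enorm
  rwa [enorm_zero] at h4

end

theorem t_APX (hU : S_SVU) (hQ : S_QN) (hP : S_PB) (hR : S_RK) : S_APX := by
  intro H _ _ _ b p hp T r hT
  obtain ⟨s, ⟨ha, h0, ht, e, f, he, hf, hTs⟩, hor⟩ := hT
  have hs : p ≠ ∞ → Summable (fun j => s j ^ p.toReal) := by
    intro h
    rcases hor with h1 | h1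
    · exact absurd h1.1 h
    · exact h1.2.1
  obtain ⟨K, Rk, hQN⟩ := hQ H p hp
  have htail := tail_tendsto hU p hp T s e f ha h0 ht he hf hTs hs
  obtain ⟨hideal, haddr, -, hneg, -⟩ := hR H
  obtain ⟨-, -, hPn, -, -, -⟩ := hP H b
  have hmid : ∀ R, Tendsto (fun k => N p (TR s e f R - P b k * TR s e f R * P b k)) atTop (𝓝 0) := by
    intro R
    have h1 : ∀ k, N p (TR s e f R - P b k * TR s e f R * P b k) ≤
        Rk (R + R) * ‖TR s e f R - P b k * TR s e f R * P b k‖ₑ := by
      intro k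
      refine hQN.fin _ _ ?_
      rw [sub_eq_add_neg]
      exact haddr R R _ _ (rank_TR hR s e f R) (hneg R _ (hideal R _ _ _ (rank_TR hR s e f R)))
    have h2 := ENNReal.Tendsto.const_mul (a := Rk (R + R)) (TR_tendsto hP b s e f R) (Or.inr (hQN.R_ne _))
    rw [mul_zero] at h2
    exact tendsto_of_tendsto_of_tendsto_of_le_of_le tendsto_const_nhds h2 (fun _ => zero_le) h1
  have hbound : ∀ R k, N p (T - P b k * T * P b k) ≤
      K * (N p (T - TR s e f R) + K * (N p (TR s e f R - P b k * TR s e f R * P b k) +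
        N p (T - TR s e f R))) := by
    intro R k
    have e1 : T - P b k * T * P b k = (T - TR s e f R) +
        ((TR s e f R - P b k * TR s e f R * P b k) + (-P b k) * (T - TR s e f R) * P b k) := by
      simp only [mul_sub, sub_mul, neg_mul]
      abel
    rw [e1]
    refine (hQN.add _ _).trans (mul_le_mul_right ?_ _)
    refine add_le_add le_rfl ((hQN.add _ _).trans (mul_le_mul_right ?_ _))
    exact add_le_add le_rfl (hQN.ideal _ _ _ (by rw [norm_neg]; exact hPn k) (hPn k))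
  rw [ENNReal.tendsto_nhds_zero]
  intro ε hε
  have hK := hQN.K_ne
  have l1 : Tendsto (fun R => K * (N p (T - TR s e f R) + K * (0 + N p (T - TR s e f R)))) atTop (𝓝 0) := by
    have h1 : Tendsto (fun R => K * (0 + N p (T - TR s e f R))) atTop (𝓝 (K * (0 + 0))) :=
      ENNReal.Tendsto.const_mul (tendsto_const_nhds.add htail) (Or.inr hK)
    have h2 := ENNReal.Tendsto.const_mul (a := K) (htail.add h1) (Or.inr hK)
    simpa using h2
  obtain ⟨R, hRε⟩ := (l1.eventually (gt_mem_nhds hε)).exists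
  have l2 : Tendsto (fun k => K * (N p (T - TR s e f R) +
      K * (N p (TR s e f R - P b k * TR s e f R * P b k) + N p (T - TR s e f R)))) atTop
      (𝓝 (K * (N p (T - TR s e f R) + K * (0 + N p (T - TR s e f R))))) :=
    ENNReal.Tendsto.const_mul (tendsto_const_nhds.add
      (ENNReal.Tendsto.const_mul ((hmid R).add tendsto_const_nhds) (Or.inr hK))) (Or.inr hK)
  filter_upwards [l2.eventually (gt_mem_nhds hRε)] with k hk
  exact (hbound R k).trans hk.le

end Pool.Agent.Q83.SH
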